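import Pool.Agent.helper15.XE.SpecL

set_option autoImplicit false

namespace Pool.Agent.XE

open Finset ArithmeticFunction
open Pool.Agent.EC (tri TL wt mt Adm edg mnf tI tII tyI cvl KK yN UN)
open Pool.Agent.CH (rgh Mo ClP ClB)
open GD (kp ks)

theorem ABL_abel (c F : ℕ → ℝ) (n : ℕ) :
    ∑ b ∈ Ioc 0 (n + 1), c b * F b = (∑ b ∈ Ioc 0 (n + 1), c b) * F (n + 1) -
      ∑ i ∈ range n, (∑ b ∈ Ioc 0 (i + 1), c b) * (F (i + 2) - F (i + 1)) := by
  induction n with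
  | zero => simp
  | succ n ih =>
    rw [Finset.sum_Ioc_succ_top (Nat.zero_le (n + 1)), ih, Finset.sum_Ioc_succ_top (Nat.zero_le (n + 1)),
      Finset.sum_range_succ]
    ring

theorem ABL_bound (c F : ℕ → ℝ) (E : ℝ) (hE : ∀ Y : ℕ, |∑ b ∈ Ioc 0 Y, c b| ≤ E) (n : ℕ) (K V : ℝ)
    (hK : |F (n + 1)| ≤ K) (hV : ∑ i ∈ range n, |F (i + 2) - F (i + 1)| ≤ V) :
    |∑ b ∈ Ioc 0 (n + 1), c b * F b| ≤ (K + V) * E := by
  have hE0 : 0 ≤ E := (abs_nonneg _).trans (hE 0)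
  rw [ABL_abel]
  have h1 : |(∑ b ∈ Ioc 0 (n + 1), c b) * F (n + 1)| ≤ E * K := by
    rw [abs_mul]
    exact mul_le_mul (hE _) hK (abs_nonneg _) hE0
  have h2 : |∑ i ∈ range n, (∑ b ∈ Ioc 0 (i + 1), c b) * (F (i + 2) - F (i + 1))| ≤ E * V := by
    refine (abs_sum_le_sum_abs _ _).trans ?_
    calc ∑ i ∈ range n, |(∑ b ∈ Ioc 0 (i + 1), c b) * (F (i + 2) - F (i + 1))|
        ≤ ∑ i ∈ range n, E * |F (i + 2) - F (i + 1)| := by
          refine sum_le_sum fun i _ => ?_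
          rw [abs_mul]
          exact mul_le_mul_of_nonneg_right (hE _) (abs_nonneg _)
      _ = E * ∑ i ∈ range n, |F (i + 2) - F (i + 1)| := by rw [mul_sum]
      _ ≤ E * V := mul_le_mul_of_nonneg_left hV hE0
  refine (abs_sub _ _).trans ?_
  linarith

theorem ABL (h1 : WVB_stmt) (h2 : TRV_stmt) : ABL_stmt := by
  obtain ⟨N₀, hN₀, h1⟩ := h1
  refine ⟨N₀, ?_⟩
  intro N hN v hv k h X E c hk hh hX hE
  have hE0 : 0 ≤ E := (abs_nonneg _).trans (hE 0)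
  have hf : ∀ j : ℕ, 0 ≤ wv N v j ∧ wv N v j ≤ 1 := fun j =>
    ⟨(((h1 N hN).1 v hv).2.2.2 j).1, (((h1 N hN).1 v hv).2.2.2 j).2.1⟩
  have hN1 : (1 : ℝ) ≤ (N : ℝ) := by
    have : 1 ≤ N := by omega
    exact_mod_cast this
  have hN3 : (1 : ℝ) ≤ (N : ℝ) ^ 3 := one_le_pow₀ hN1
  set Lam : ℝ := 1 + Real.log (64 * (N : ℝ) ^ 3) with hLam
  have hlog0 : 0 ≤ Real.log (64 * (N : ℝ) ^ 3) := Real.log_nonneg (by linarith)
  have hLam1 : 1 ≤ Lam := by linarith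
  -- bound of the power of the logarithm
  have hlb : ∀ b : ℕ, 1 ≤ b → b ≤ X → 0 ≤ Real.log (b : ℝ) ^ h ∧ Real.log (b : ℝ) ^ h ≤ Lam := by
    intro b hb1 hbX
    have hb1' : (1 : ℝ) ≤ (b : ℝ) := by exact_mod_cast hb1
    have h3 : 0 ≤ Real.log (b : ℝ) := Real.log_nonneg hb1'
    have h4 : (b : ℝ) ≤ 64 * (N : ℝ) ^ 3 := by
      have : b ≤ 64 * N ^ 3 := hbX.trans hX
      exact_mod_cast this
    have h5 : Real.log (b : ℝ) ≤ Real.log (64 * (N : ℝ) ^ 3) := Real.log_le_log (by linarith) h4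
    refine ⟨pow_nonneg h3 _, ?_⟩
    rcases Nat.le_one_iff_eq_zero_or_eq_one.1 hh with h0 | h0
    · rw [h0, pow_zero]
      exact hLam1
    · rw [h0, pow_one]
      linarith
  rcases Nat.eq_zero_or_pos X with hX0 | hX0
  · rw [hX0]
    simp only [Ioc_self, sum_empty, abs_zero]
    have : 0 ≤ Lam := by linarith
    positivity
  obtain ⟨n, rfl⟩ : ∃ n, X = n + 1 := ⟨X - 1, by omega⟩
  have hre : ∑ b ∈ Ioc 0 (n + 1), c b * Real.log b ^ h * wv N v (k * b) =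
      ∑ b ∈ Ioc 0 (n + 1), c b * (Real.log b ^ h * wv N v (k * b)) :=
    sum_congr rfl fun b _ => by ring
  rw [hre]
  have hmain := ABL_bound c (fun b => Real.log b ^ h * wv N v (k * b)) E hE n Lam (Lam + 2 * Lam) ?_ ?_
  · refine hmain.trans (le_of_eq ?_)
    ring
  · obtain ⟨h3, h4⟩ := hlb (n + 1) (by omega) le_rfl
    obtain ⟨h5, h6⟩ := hf (k * (n + 1))
    rw [abs_of_nonneg (mul_nonneg h3 h5)]
    calc Real.log ((n + 1 : ℕ) : ℝ) ^ h * wv N v (k * (n + 1)) ≤ Real.log ((n + 1 : ℕ) : ℝ) ^ h * 1 :=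
          mul_le_mul_of_nonneg_left h6 h3
      _ ≤ Lam := by rw [mul_one]; exact h4
  · -- variation
    have hmono : ∀ i : ℕ, Real.log ((i + 1 : ℕ) : ℝ) ^ h ≤ Real.log ((i + 2 : ℕ) : ℝ) ^ h := by
      intro i
      refine pow_le_pow_left₀ (Real.log_nonneg ?_) (Real.log_le_log ?_ ?_) h
      · exact_mod_cast Nat.succ_le_succ (Nat.zero_le i)
      · exact_mod_cast Nat.succ_pos i
      · exact_mod_cast Nat.le_succ (i + 1)
    have hterm : ∀ i ∈ range n,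
        |(fun b : ℕ => Real.log b ^ h * wv N v (k * b)) (i + 2) - (fun b : ℕ => Real.log b ^ h * wv N v (k * b)) (i + 1)| ≤
        (Real.log ((i + 1 + 1 : ℕ) : ℝ) ^ h - Real.log ((i + 1 : ℕ) : ℝ) ^ h) +
          Lam * |wv N v (k * (i + 1 + 1)) - wv N v (k * (i + 1))| := by
      intro i hi
      have hi' := mem_range.1 hi
      obtain ⟨h3, h4⟩ := hlb (i + 1) (by omega) (by omega)
      obtain ⟨h5, h6⟩ := hf (k * (i + 1 + 1))
      have h7 := hmono i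
      simp only
      have e1 : Real.log ((i + 2 : ℕ) : ℝ) ^ h * wv N v (k * (i + 2)) - Real.log ((i + 1 : ℕ) : ℝ) ^ h * wv N v (k * (i + 1)) =
          (Real.log ((i + 2 : ℕ) : ℝ) ^ h - Real.log ((i + 1 : ℕ) : ℝ) ^ h) * wv N v (k * (i + 2)) +
            Real.log ((i + 1 : ℕ) : ℝ) ^ h * (wv N v (k * (i + 2)) - wv N v (k * (i + 1))) := by ring
      rw [e1]
      refine (abs_add_le _ _).trans (add_le_add ?_ ?_)
      · rw [abs_mul, abs_of_nonneg (sub_nonneg.2 h7), abs_of_nonneg h5]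
        calc (Real.log ((i + 2 : ℕ) : ℝ) ^ h - Real.log ((i + 1 : ℕ) : ℝ) ^ h) * wv N v (k * (i + 2))
            ≤ (Real.log ((i + 2 : ℕ) : ℝ) ^ h - Real.log ((i + 1 : ℕ) : ℝ) ^ h) * 1 :=
              mul_le_mul_of_nonneg_left h6 (sub_nonneg.2 h7)
          _ = Real.log ((i + 1 + 1 : ℕ) : ℝ) ^ h - Real.log ((i + 1 : ℕ) : ℝ) ^ h := by rw [mul_one]
      · rw [abs_mul, abs_of_nonneg h3]
        exact mul_le_mul_of_nonneg_right h4 (abs_nonneg _)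
    refine (sum_le_sum hterm).trans ?_
    rw [sum_add_distrib, ← mul_sum]
    have htel : ∑ i ∈ range n, (Real.log ((i + 1 + 1 : ℕ) : ℝ) ^ h - Real.log ((i + 1 : ℕ) : ℝ) ^ h) =
        Real.log ((n + 1 : ℕ) : ℝ) ^ h - Real.log ((0 + 1 : ℕ) : ℝ) ^ h :=
      Finset.sum_range_sub (fun i : ℕ => Real.log ((i + 1 : ℕ) : ℝ) ^ h) n
    have hvar := h2 N (by omega) v (fun i => k * (i + 1)) (by
      intro i j hij
      exact Nat.mul_le_mul_left k (Nat.succ_le_succ hij)) (by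
      have : 1 ≤ k * (0 + 1) := by omega
      exact this) n
    obtain ⟨h3, h4⟩ := hlb (n + 1) (by omega) le_rfl
    obtain ⟨h5, _⟩ := hlb 1 le_rfl (by omega)
    rw [htel]
    have h6 : 0 ≤ Real.log ((0 + 1 : ℕ) : ℝ) ^ h := h5
    have h7 : Lam * ∑ i ∈ range n, |wv N v (k * (i + 1 + 1)) - wv N v (k * (i + 1))| ≤ Lam * 2 :=
      mul_le_mul_of_nonneg_left hvar (by linarith)
    linarith

end Pool.Agent.XE
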