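import Pool.Agent.helper15.XE.SpecC

/-! # Project XE (MP_5628fe_nt), row CM0 -/

set_option autoImplicit false

namespace Pool.Agent.XE

open Finset ArithmeticFunction
open Pool.Agent.EC (tri TL wt mt Adm edg mnf tI tII tyI cvl KK yN UN TUP TLe GdT)

/-- the cell of a prime -/
noncomputable def CM0_ce (N r q : ℕ) : ℕ := ⌊(hX r : ℝ) * Real.log q / (3 * Real.log N)⌋₊

theorem CM0_hX_pos (r : ℕ) : 0 < hX r := by
  unfold hX
  split_ifs <;> norm_num

theorem CM0_yX (r : ℕ) : 20 ≤ yX r := by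
  unfold yX
  split_ifs <;> norm_num

theorem CM0_om_nonneg (b : Bool) (r : ℕ) : 0 ≤ om b r := by
  unfold om
  split_ifs <;> positivity

theorem CM0_JX_sum {b : Bool} {r : ℕ} (h3 : 3 ≤ r) {j : Fin r → ℕ} (hj : j ∈ JX b r) : ∑ i, j i + 20 ≤ hX r := by
  unfold JX at hj
  obtain ⟨h1, h2⟩ := Finset.mem_filter.mp hj
  have h4 := h2 ⟨r - 1, by omega⟩
  rw [Fintype.mem_piFinset] at h1
  have h5 := h1 ⟨r - 1, by omega⟩
  have h6 : ¬ (b = true ∧ ((⟨r - 1, by omega⟩ : Fin r).val = 0)) := by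
    rintro ⟨-, h⟩
    have : r - 1 = 0 := h
    omega
  rw [if_neg h6, Finset.mem_Ico] at h5
  have h7 := CM0_yX r
  omega

theorem CM0_pX_pos {r σ : ℕ} (hr : r ≤ 5) (hσ : σ + 20 ≤ hX r) : 0 < pX r σ := by
  unfold pX
  have h1 : (r : ℝ) ≤ 5 := by exact_mod_cast hr
  have h2 : (σ : ℝ) + 20 ≤ (hX r : ℝ) := by exact_mod_cast hσ
  have h3 : (0 : ℝ) < (hX r : ℝ) := by exact_mod_cast CM0_hX_pos r
  apply div_pos h3
  linarith

theorem CM0_TL_nonneg {r : ℕ} (N : ℕ) (a b : Fin r → ℝ) (m : ℕ) : 0 ≤ TL N a b m := by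
  unfold TL
  exact Finset.sum_nonneg fun _ _ => vonMangoldt_nonneg

theorem CM0_term_nonneg (N : ℕ) (hN : 2 ≤ N) (m : ℕ) (b : Bool) (r : ℕ) (h3 : 3 ≤ r) (hr : r ≤ 5) (j : Fin r → ℕ)
    (hj : j ∈ JX b r) : 0 ≤ om b r * pX r (∑ i, j i) / (3 * Real.log N) * TL N (aX j) (bX j) m := by
  have hL : 0 < Real.log N := Real.log_pos (by exact_mod_cast hN)
  have h1 := CM0_om_nonneg b r
  have h2 := (CM0_pX_pos hr (CM0_JX_sum h3 hj)).le
  have h3 := CM0_TL_nonneg N (aX j) (bX j) m
  positivity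

theorem CM0_TS_ge (N : ℕ) (hN : 2 ≤ N) (m : ℕ) (b : Bool) (r : ℕ) (h3 : 3 ≤ r) (hr : r ≤ 5) :
    ∑ j ∈ JX b r, om b r * pX r (∑ i, j i) / (3 * Real.log N) * TL N (aX j) (bX j) m ≤ TS N m := by
  unfold TS
  have h1 : ∑ j ∈ JX b r, om b r * pX r (∑ i, j i) / (3 * Real.log N) * TL N (aX j) (bX j) m ≤
      ∑ r ∈ Icc 3 5, ∑ j ∈ JX b r, om b r * pX r (∑ i, j i) / (3 * Real.log N) *
        TL N (aX j) (bX j) m := by
    refine Finset.single_le_sum (f := fun r => ∑ j ∈ JX b r, om b r * pX r (∑ i, j i) /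
      (3 * Real.log N) * TL N (aX j) (bX j) m) (fun r' hr' => ?_) (Finset.mem_Icc.mpr ⟨h3, hr⟩)
    exact Finset.sum_nonneg fun j hj => CM0_term_nonneg N hN m b r' (Finset.mem_Icc.mp hr').1 (Finset.mem_Icc.mp hr').2 j hj
  refine h1.trans ?_
  refine Finset.single_le_sum (f := fun b => ∑ r ∈ Icc 3 5, ∑ j ∈ JX b r, om b r *
      pX r (∑ i, j i) / (3 * Real.log N) * TL N (aX j) (bX j) m) (fun b' _ => ?_) (Finset.mem_univ b)
  exact Finset.sum_nonneg fun r' hr' => Finset.sum_nonneg fun j hj =>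
    CM0_term_nonneg N hN m b' r' (Finset.mem_Icc.mp hr').1 (Finset.mem_Icc.mp hr').2 j hj

/-- the cells contain the prime -/
theorem CM0_cell (N r q : ℕ) (hN : 2 ≤ N) (hq : 1 ≤ q) :
    (N : ℝ) ^ (3 * ((CM0_ce N r q : ℕ) : ℝ) / (hX r : ℝ)) ≤ q ∧
      (q : ℝ) < (N : ℝ) ^ (3 * (((CM0_ce N r q : ℕ) : ℝ) + 1) / (hX r : ℝ)) := by
  have hL : 0 < Real.log N := Real.log_pos (by exact_mod_cast hN)
  have hN0 : (0 : ℝ) < N := by positivity
  have hq0 : (0 : ℝ) < q := by exact_mod_cast hq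
  have hlq : 0 ≤ Real.log q := Real.log_nonneg (by exact_mod_cast hq)
  have hH : (0 : ℝ) < (hX r : ℝ) := by exact_mod_cast CM0_hX_pos r
  have h0 : 0 ≤ (hX r : ℝ) * Real.log q / (3 * Real.log N) := by positivity
  have h1 := Nat.floor_le h0
  have h2 := Nat.lt_floor_add_one ((hX r : ℝ) * Real.log q / (3 * Real.log N))
  constructor
  · rw [Real.rpow_def_of_pos hN0, ← Real.le_log_iff_exp_le hq0, mul_div_assoc', div_le_iff₀ hH]
    rw [le_div_iff₀ (by positivity)] at h1
    unfold CM0_ce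
    linarith
  · rw [Real.rpow_def_of_pos hN0, ← Real.log_lt_iff_lt_exp hq0, mul_div_assoc', lt_div_iff₀ hH]
    rw [div_lt_iff₀ (by positivity)] at h2
    unfold CM0_ce
    linarith

/-- the remaining prime -/
theorem CM0_rem (a r : ℕ) (hsq : Squarefree a) (hcard : #a.primeFactors = r + 1) (U : Finset ℕ)
    (hU : U ⊆ a.primeFactors) (e : Fin r ↪ U) : ∃ P ∈ a.primeFactors, a = (∏ i, (e i : ℕ)) * P := by
  classical
  set I : Finset ℕ := univ.image fun i => (e i : ℕ) with hI
  have hinj : Function.Injective fun i => (e i : ℕ) := fun i i' h => e.injective (Subtype.ext h)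
  have hIc : #I = r := by rw [hI, Finset.card_image_of_injective _ hinj, Finset.card_univ, Fintype.card_fin]
  have hIS : I ⊆ a.primeFactors := by
    intro q hq
    obtain ⟨i, _, rfl⟩ := Finset.mem_image.mp hq
    exact hU (e i).2
  have hprod : ∏ q ∈ I, q = ∏ i, (e i : ℕ) := by
    rw [hI, Finset.prod_image (fun i _ i' _ h => hinj h)]
  have h1 : #(a.primeFactors \ I) = 1 := by
    rw [Finset.card_sdiff_of_subset hIS, hcard, hIc]
    omega
  obtain ⟨P, hP⟩ := Finset.card_eq_one.mp h1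
  have hPm : P ∈ a.primeFactors := by
    have : P ∈ a.primeFactors \ I := by rw [hP]; exact Finset.mem_singleton_self P
    exact (Finset.mem_sdiff.mp this).1
  refine ⟨P, hPm, ?_⟩
  have h2 := Nat.prod_primeFactors_of_squarefree hsq
  rw [← Finset.prod_sdiff hIS, hP, Finset.prod_singleton, hprod] at h2
  rw [← h2, mul_comm]

theorem CM0_sum (N a r : ℕ) (hN : 2 ≤ N) (ha : N ^ 3 < a) (hsq : Squarefree a) (hcard : #a.primeFactors = r + 1)
    (h3 : 3 ≤ r) (hr : r ≤ 5) (U : Finset ℕ) (hU : U ⊆ a.primeFactors)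
    (hcell : ∀ q ∈ U, yX r ≤ CM0_ce N r q)
    (hσ : ∀ e : Fin r ↪ U, ∀ i, CM0_ce N r (e i) + ∑ k, CM0_ce N r (e k) ≤ hX r) :
    (Fintype.card (Fin r ↪ U) : ℝ) * om false r ≤ TS N a := by
  classical
  refine le_trans ?_ (CM0_TS_ge N hN a false r h3 hr)
  have hL : 0 < Real.log N := Real.log_pos (by exact_mod_cast hN)
  have hN0 : (0 : ℝ) < N := by positivity
  have hH : (0 : ℝ) < (hX r : ℝ) := by exact_mod_cast CM0_hX_pos r
  let J : (Fin r ↪ U) → (Fin r → ℕ) := fun e i => CM0_ce N r (e i)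
  let φ : (Fin r ↪ U) ↪ (Fin r → ℕ) := ⟨fun e i => (e i : ℕ), fun e e' h => by
    ext i
    exact congrFun h i⟩
  have hJ : ∀ e : Fin r ↪ U, J e ∈ JX false r := by
    intro e
    unfold JX
    refine Finset.mem_filter.mpr ⟨?_, hσ e⟩
    rw [Fintype.mem_piFinset]
    intro i
    have h1 := hcell (e i) (e i).2
    have h2 : ¬ (false = true ∧ i.val = 0) := by simp
    rw [if_neg h2, Finset.mem_Ico]
    refine ⟨h1, ?_⟩
    have h5 := hσ e i
    have h6 : CM0_ce N r (e i) ≤ ∑ k, CM0_ce N r (e k) :=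
      Finset.single_le_sum (f := fun k => CM0_ce N r (e k)) (fun _ _ => Nat.zero_le _) (Finset.mem_univ i)
    have h7 := CM0_yX r
    change CM0_ce N r (e i) < hX r
    omega
  have hTL : ∀ j ∈ JX false r, ∑ e ∈ (univ : Finset (Fin r ↪ U)) with J e = j,
      vonMangoldt (a / ∏ i, (e i : ℕ)) ≤ TL N (aX j) (bX j) a := by
    intro j _
    have h1 : ∑ e ∈ (univ : Finset (Fin r ↪ U)) with J e = j, vonMangoldt (a / ∏ i, (e i : ℕ)) =
        ∑ p ∈ ((univ : Finset (Fin r ↪ U)).filter fun e => J e = j).map φ, vonMangoldt (a / ∏ i, p i) := by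
      rw [Finset.sum_map]
      rfl
    rw [h1]
    unfold TL
    refine Finset.sum_le_sum_of_subset_of_nonneg ?_ fun _ _ _ => vonMangoldt_nonneg
    intro p hp
    obtain ⟨e, he, rfl⟩ := Finset.mem_map.mp hp
    have he' : J e = j := (Finset.mem_filter.mp he).2
    refine Finset.mem_filter.mpr ⟨?_, ?_, ?_⟩
    · rw [Fintype.mem_piFinset]
      intro i
      exact hU (e i).2
    · intro i
      have hq1 : 1 ≤ (e i : ℕ) := (Nat.prime_of_mem_primeFactors (hU (e i).2)).one_le
      have h2 := CM0_cell N r (e i) hN hq1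
      have h3 : j i = CM0_ce N r (e i) := by rw [← he']
      unfold aX bX
      rw [h3]
      exact h2
    · obtain ⟨P, _, hP⟩ := CM0_rem a r hsq hcard U hU e
      exact ⟨P, hP⟩
  have hterm : ∀ e : Fin r ↪ U, om false r ≤ om false r * pX r (∑ i, J e i) / (3 * Real.log N) *
      vonMangoldt (a / ∏ i, (e i : ℕ)) := by
    intro e
    obtain ⟨P, hPm, hP⟩ := CM0_rem a r hsq hcard U hU e
    have hPp := Nat.prime_of_mem_primeFactors hPm
    have hpos : ∀ i, 0 < (e i : ℕ) := fun i => (Nat.prime_of_mem_primeFactors (hU (e i).2)).pos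
    have hprod : 0 < ∏ i, (e i : ℕ) := Finset.prod_pos fun i _ => hpos i
    have h1 : a / ∏ i, (e i : ℕ) = P := by
      rw [hP]
      exact Nat.mul_div_cancel_left P hprod
    have h1' : vonMangoldt (a / ∏ i, (e i : ℕ)) = Real.log P := by
      rw [h1]
      exact vonMangoldt_apply_prime hPp
    rw [h1']
    have hlog : Real.log a = ∑ i, Real.log (e i : ℕ) + Real.log P := by
      rw [hP, Nat.cast_mul, Nat.cast_prod, Real.log_mul
        (Finset.prod_ne_zero_iff.mpr fun i _ => by exact_mod_cast (hpos i).ne') (by exact_mod_cast hPp.ne_zero)]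
      rw [Real.log_prod (fun i _ => by exact_mod_cast (hpos i).ne')]
    have hloga : 3 * Real.log N ≤ Real.log a := by
      have h3 : (3 : ℝ) * Real.log N = Real.log ((N : ℝ) ^ 3) := by
        rw [Real.log_pow]; norm_num
      rw [h3]
      apply Real.log_le_log (by positivity)
      exact_mod_cast ha.le
    have hle : ∑ i, Real.log (e i : ℕ) ≤ 3 * Real.log N * ((∑ i, J e i : ℕ) + r) / (hX r : ℝ) := by
      have h5 : ∀ i, Real.log (e i : ℕ) ≤ 3 * Real.log N * ((J e i : ℝ) + 1) / (hX r : ℝ) := by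
        intro i
        have h2 := (CM0_cell N r (e i) hN (hpos i)).2.le
        have hq0 : (0 : ℝ) < ((e i : ℕ) : ℝ) := by exact_mod_cast hpos i
        have h6 := Real.log_le_log hq0 h2
        rw [Real.log_rpow hN0] at h6
        calc Real.log (e i : ℕ) ≤ _ := h6
          _ = 3 * Real.log N * ((J e i : ℝ) + 1) / (hX r : ℝ) := by ring
      calc ∑ i, Real.log (e i : ℕ) ≤ ∑ i, 3 * Real.log N * ((J e i : ℝ) + 1) / (hX r : ℝ) :=
            Finset.sum_le_sum fun i _ => h5 i
        _ = _ := by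
            rw [← Finset.sum_div, ← Finset.mul_sum, Finset.sum_add_distrib]
            simp
    have hs := CM0_JX_sum h3 (hJ e)
    have hs' : ((∑ i, J e i : ℕ) : ℝ) + 20 ≤ (hX r : ℝ) := by exact_mod_cast hs
    have hr' : (r : ℝ) ≤ 5 := by exact_mod_cast hr
    have hden : 0 < (hX r : ℝ) - ((∑ i, J e i : ℕ) : ℝ) - r := by linarith
    have hP1 : 3 * Real.log N * ((hX r : ℝ) - ((∑ i, J e i : ℕ) : ℝ) - r) / (hX r : ℝ) ≤ Real.log P := by
      have h7 : 3 * Real.log N * ((hX r : ℝ) - ((∑ i, J e i : ℕ) : ℝ) - r) / (hX r : ℝ) =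
          3 * Real.log N - 3 * Real.log N * (((∑ i, J e i : ℕ) : ℝ) + r) / (hX r : ℝ) := by
        field_simp
        ring
      rw [h7]
      linarith
    have hom0 := CM0_om_nonneg false r
    have h8 : 1 ≤ pX r (∑ i, J e i) / (3 * Real.log N) * Real.log P := by
      have h9 : pX r (∑ i, J e i) / (3 * Real.log N) *
          (3 * Real.log N * ((hX r : ℝ) - ((∑ i, J e i : ℕ) : ℝ) - r) / (hX r : ℝ)) = 1 := by
        unfold pX
        field_simp
      rw [← h9]
      refine mul_le_mul_of_nonneg_left hP1 ?_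
      have := (CM0_pX_pos hr hs).le
      positivity
    calc om false r = om false r * 1 := by rw [mul_one]
      _ ≤ om false r * (pX r (∑ i, J e i) / (3 * Real.log N) * Real.log P) :=
          mul_le_mul_of_nonneg_left h8 hom0
      _ = _ := by ring
  calc (Fintype.card (Fin r ↪ U) : ℝ) * om false r = ∑ _e : Fin r ↪ U, om false r := by
        rw [Finset.sum_const, Finset.card_univ, nsmul_eq_mul]
    _ ≤ ∑ e : Fin r ↪ U, om false r * pX r (∑ i, J e i) / (3 * Real.log N) *
          vonMangoldt (a / ∏ i, (e i : ℕ)) := Finset.sum_le_sum fun e _ => hterm e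
    _ = ∑ j ∈ JX false r, ∑ e ∈ (univ : Finset (Fin r ↪ U)) with J e = j,
          om false r * pX r (∑ i, J e i) / (3 * Real.log N) *
            vonMangoldt (a / ∏ i, (e i : ℕ)) :=
        (Finset.sum_fiberwise_of_maps_to (fun e _ => hJ e) _).symm
    _ ≤ ∑ j ∈ JX false r, om false r * pX r (∑ i, j i) / (3 * Real.log N) *
          TL N (aX j) (bX j) a := by
        refine Finset.sum_le_sum fun j hj => ?_
        have h1 : ∑ e ∈ (univ : Finset (Fin r ↪ U)) with J e = j,
            om false r * pX r (∑ i, J e i) / (3 * Real.log N) *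
              vonMangoldt (a / ∏ i, (e i : ℕ)) =
            om false r * pX r (∑ i, j i) / (3 * Real.log N) *
              ∑ e ∈ (univ : Finset (Fin r ↪ U)) with J e = j, vonMangoldt (a / ∏ i, (e i : ℕ)) := by
          rw [Finset.mul_sum]
          refine Finset.sum_congr rfl fun e he => ?_
          rw [(Finset.mem_filter.mp he).2]
        rw [h1]
        refine mul_le_mul_of_nonneg_left (hTL j hj) ?_
        have h2 := CM0_om_nonneg false r
        have h3 := (CM0_pX_pos hr (CM0_JX_sum h3 hj)).le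
        positivity

/-- CM0. -/
theorem CM0 : CM0_stmt := by
  classical
  refine ⟨⌈Real.exp 200⌉₊, fun N hN a ha1 ha2 hsq hq hk => ?_⟩
  have hN' : Real.exp 200 ≤ N := Nat.ceil_le.1 hN
  have hN0 : (0 : ℝ) < N := lt_of_lt_of_le (Real.exp_pos _) hN'
  have hL2 : 200 ≤ Real.log N := by
    rw [Real.le_log_iff_exp_le hN0]
    exact hN'
  have hL : 0 < Real.log N := by linarith
  have hN2 : 2 ≤ N := by
    have h1 : (201 : ℝ) ≤ N := by
      have h2 := Real.add_one_le_exp (200 : ℝ)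
      linarith
    have h3 : (2 : ℝ) ≤ N := by linarith
    exact_mod_cast h3
  have hpos : ∀ q ∈ a.primeFactors, 0 < q := fun q h => (Nat.prime_of_mem_primeFactors h).pos
  have hone : ∀ q ∈ a.primeFactors, 1 ≤ q := fun q h => (Nat.prime_of_mem_primeFactors h).one_le
  have hlq : ∀ q ∈ a.primeFactors, ay * Real.log N ≤ Real.log q := by
    intro q h
    have h1 := Real.log_le_log (Real.rpow_pos_of_pos hN0 _) (hq q h)
    rwa [Real.log_rpow hN0] at h1
  have hloga : Real.log a = ∑ q ∈ a.primeFactors, Real.log q := by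
    conv_lhs => rw [← Nat.prod_primeFactors_of_squarefree hsq]
    rw [Nat.cast_prod, Real.log_prod (fun q h => by exact_mod_cast (hpos q h).ne')]
  have hlogle : Real.log a ≤ 3 * Real.log N + 2 := by
    have ha0 : (0 : ℝ) < a := by
      have : 0 < a := by omega
      exact_mod_cast this
    have h1 : (a : ℝ) ≤ 3 * (N : ℝ) ^ 3 := by exact_mod_cast ha2
    have h2 := Real.log_le_log ha0 h1
    rw [Real.log_mul (by norm_num) (by positivity), Real.log_pow] at h2
    have h3 : Real.log 3 ≤ 3 - 1 := Real.log_le_sub_one_of_pos (by norm_num)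
    push_cast at h2
    linarith
  obtain ⟨r, hr⟩ : ∃ r, #a.primeFactors = r + 1 := ⟨#a.primeFactors - 1, by omega⟩
  have h3 : 3 ≤ r := by omega
  have hay : ay = 519375 / 1000000 := by
    unfold ay
    norm_num
  have hr4 : r ≤ 4 := by
    have h1 : (#a.primeFactors : ℝ) * (ay * Real.log N) ≤ ∑ q ∈ a.primeFactors, Real.log q := by
      rw [← nsmul_eq_mul]
      exact Finset.card_nsmul_le_sum _ _ _ fun q h => hlq q h
    rw [← hloga, hr] at h1
    have h2 : ((r + 1 : ℕ) : ℝ) * (ay * Real.log N) ≤ 3 * Real.log N + 2 := h1.trans hlogle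
    rw [hay] at h2
    by_contra hcon
    have h6 : (6 : ℝ) ≤ ((r + 1 : ℕ) : ℝ) := by
      have : 6 ≤ r + 1 := by omega
      exact_mod_cast this
    have h7 : 6 * (519375 / 1000000 * Real.log N) ≤ ((r + 1 : ℕ) : ℝ) * (519375 / 1000000 * Real.log N) :=
      mul_le_mul_of_nonneg_right h6 (by positivity)
    linarith
  have hHp : (0 : ℝ) < (hX r : ℝ) := by exact_mod_cast CM0_hX_pos r
  have hH232 : (hX r : ℝ) ≤ 232 := by
    unfold hX
    split_ifs <;> norm_num
  have hceY : ∀ q ∈ a.primeFactors, yX r ≤ CM0_ce N r q := by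
    intro q h
    unfold CM0_ce
    rw [Nat.le_floor_iff (by have := Real.log_nonneg (show (1 : ℝ) ≤ q by exact_mod_cast hone q h); positivity)]
    rw [le_div_iff₀ (by positivity)]
    have h1 := hlq q h
    rw [hay] at h1
    unfold yX hX
    split_ifs
    · push_cast
      nlinarith
    · push_cast
      nlinarith
  -- the largest prime
  have hne : a.primeFactors.Nonempty := by
    rw [← Finset.card_pos]
    omega
  obtain ⟨P, hP, hPm⟩ := Finset.exists_max_image a.primeFactors id hne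
  set U := a.primeFactors.erase P with hU
  have hUS : U ⊆ a.primeFactors := Finset.erase_subset _ _
  have hUc : #U = r := by
    rw [hU, Finset.card_erase_of_mem hP, hr]
    omega
  have hUsum : ∑ q ∈ U, Real.log q + Real.log P = Real.log a := by
    rw [hloga, hU]
    exact Finset.sum_erase_add _ _ hP
  have hσ : ∀ e : Fin r ↪ U, ∀ i, CM0_ce N r (e i) + ∑ k, CM0_ce N r (e k) ≤ hX r := by
    intro e i
    have hinj : Function.Injective fun i => (e i : ℕ) := fun i i' h => e.injective (Subtype.ext h)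
    have h1 : ∑ k, Real.log ((e k : ℕ) : ℝ) ≤ ∑ q ∈ U, Real.log q := by
      have h2 : ∑ i, Real.log ((e i : ℕ) : ℝ) = ∑ q ∈ univ.image fun i => (e i : ℕ), Real.log q := by
        rw [Finset.sum_image (fun i _ i' _ h => hinj h)]
      rw [h2]
      refine Finset.sum_le_sum_of_subset_of_nonneg ?_ ?_
      · intro q hq'
        obtain ⟨i, _, rfl⟩ := Finset.mem_image.mp hq'
        exact (e i).2
      · intro q hq' _
        exact Real.log_nonneg (by exact_mod_cast hone q (hUS hq'))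
    have h2 : Real.log ((e i : ℕ) : ℝ) ≤ Real.log P := by
      apply Real.log_le_log
      · exact_mod_cast hpos _ (hUS (e i).2)
      · exact_mod_cast hPm _ (hUS (e i).2)
    have h4 : ∀ k, ((CM0_ce N r (e k) : ℕ) : ℝ) ≤ (hX r : ℝ) / (3 * Real.log N) * Real.log ((e k : ℕ) : ℝ) := by
      intro k
      have hlq0 : 0 ≤ Real.log ((e k : ℕ) : ℝ) := Real.log_nonneg (by exact_mod_cast hone _ (hUS (e k).2))
      calc ((CM0_ce N r (e k) : ℕ) : ℝ) ≤ (hX r : ℝ) * Real.log ((e k : ℕ) : ℝ) / (3 * Real.log N) := Nat.floor_le (by positivity)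
        _ = _ := by ring
    have h5 : ((CM0_ce N r (e i) + ∑ k, CM0_ce N r (e k) : ℕ) : ℝ) ≤ (hX r : ℝ) / (3 * Real.log N) * (3 * Real.log N + 2) := by
      push_cast
      calc ((CM0_ce N r (e i) : ℕ) : ℝ) + ∑ k, ((CM0_ce N r (e k) : ℕ) : ℝ)
          ≤ (hX r : ℝ) / (3 * Real.log N) * Real.log ((e i : ℕ) : ℝ) + ∑ k, (hX r : ℝ) / (3 * Real.log N) * Real.log ((e k : ℕ) : ℝ) :=
            add_le_add (h4 i) (Finset.sum_le_sum fun k _ => h4 k)
        _ = (hX r : ℝ) / (3 * Real.log N) * (Real.log ((e i : ℕ) : ℝ) + ∑ k, Real.log ((e k : ℕ) : ℝ)) := by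
            rw [← Finset.mul_sum, mul_add]
        _ ≤ (hX r : ℝ) / (3 * Real.log N) * (3 * Real.log N + 2) := by
            refine mul_le_mul_of_nonneg_left ?_ (by positivity)
            linarith
    have h6 : (hX r : ℝ) / (3 * Real.log N) * (3 * Real.log N + 2) < (hX r : ℝ) + 1 := by
      rw [div_mul_eq_mul_div, div_lt_iff₀ (by positivity)]
      nlinarith
    have h7 : ((CM0_ce N r (e i) + ∑ k, CM0_ce N r (e k) : ℕ) : ℝ) < ((hX r + 1 : ℕ) : ℝ) := by
      push_cast
      push_cast at h5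
      linarith
    have h8 : CM0_ce N r (e i) + ∑ k, CM0_ce N r (e k) < hX r + 1 := by exact_mod_cast h7
    omega
  have hcard := CM0_sum N a r hN2 ha1 hsq hr h3 (by omega) U hUS (fun q h => hceY q (hUS h)) hσ
  have hE : Fintype.card (Fin r ↪ U) = r.factorial := by
    rw [Fintype.card_embedding_eq, Fintype.card_fin, Fintype.card_coe, hUc, Nat.descFactorial_self]
  rw [hE] at hcard
  have hf : (0 : ℝ) < (r.factorial : ℝ) := by exact_mod_cast r.factorial_pos
  unfold om at hcard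
  rw [if_neg (by simp)] at hcard
  rwa [mul_one_div_cancel hf.ne'] at hcard

end Pool.Agent.XE
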